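import Pool.Agent.helper51.VR.Spec

/-!
# Project vr (MP_24e2e7_nt), row TR1
-/

set_option autoImplicit false

namespace Pool.Agent.VR

open Pool.Agent.RB NumberField IsDedekindDomain Module
open scoped nonZeroDivisors Real Classical IsMulCommutative

section

variable {F H : Type} [Field F] [NumberField F] [Field H] [NumberField H] [Algebra F H] [IsAbelianGalois F H]

/-- `toQ` as a ring homomorphism -/
noncomputable def TR1_T : MonoidAlgebra ℤ (H ≃ₐ[F] H) →+* QGr F H :=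
  MonoidAlgebra.mapRingHom (H ≃ₐ[F] H) (Int.castRingHom ℚ)

theorem TR1_toQ (y : MonoidAlgebra ℤ (H ≃ₐ[F] H)) : toQ y = TR1_T (F := F) y := rfl

theorem TR1_sg (c : H ≃ₐ[F] H) : TR1_T (F := F) (MonoidAlgebra.single c 1) = sg c := by
  have h1 : (MonoidAlgebra.mapRingHom (H ≃ₐ[F] H) (Int.castRingHom ℚ)) (MonoidAlgebra.single c 1) =
      (MonoidAlgebra.single c 1 : MonoidAlgebra ℚ (H ≃ₐ[F] H)) := by
    rw [MonoidAlgebra.mapRingHom_single]
    simp
  exact h1

theorem TR1_inv (k : ℕ) (hk : k ≠ 0) : ∃ q : QGr F H, (k : QGr F H) * q = 1 := by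
  refine ⟨(MonoidAlgebra.single 1 ((k : ℚ)⁻¹) : MonoidAlgebra ℚ (H ≃ₐ[F] H)), ?_⟩
  have h1 : (k : MonoidAlgebra ℚ (H ≃ₐ[F] H)) * MonoidAlgebra.single 1 ((k : ℚ)⁻¹) = 1 := by
    rw [MonoidAlgebra.natCast_def, MonoidAlgebra.single_mul_single, MonoidAlgebra.one_def, mul_one,
      mul_inv_cancel₀ (by exact_mod_cast hk)]
  exact h1

theorem TR1_detm {R W N : Type} [CommRing R] [AddCommGroup W] [Module R W] [AddCommGroup N] [Module R N] {r : ℕ}
    (g : Fin r → W →ₗ[R] R) (j : N →ₗ[R] W) (x : Fin r → N) (a : R) :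
    detm g j (a • exteriorPower.ιMulti R r x : ⋀[R]^r N) = a * Matrix.det (fun i k => g i (j (x k))) := by
  unfold detm DT
  rw [← Matrix.det_transpose]
  change exteriorPower.alternatingMapLinearEquiv _ (a • exteriorPower.ιMulti R r x) = _
  rw [map_smul, exteriorPower.alternatingMapLinearEquiv_apply_ιMulti, smul_eq_mul]
  rfl

theorem TR1_nsm {R W N : Type} [CommRing R] [AddCommGroup W] [Module R W] [AddCommGroup N] [Module R N] {r : ℕ}
    (g : Fin r → W →ₗ[R] R) (j : N →ₗ[R] W) (u : EP R N r) (d : ℕ) :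
    detm g j (nsm d u) = (d : R) * detm g j u := by
  unfold detm nsm
  rw [← nsmul_eq_mul]
  exact map_nsmul _ _ _

theorem TR1_pow {R : Type} [CommRing R] (n : R) (c Θ : R) (h : c * Θ = -Θ) (r : ℕ) :
    (n * (1 - c)) ^ r * Θ = (2 * n) ^ r * Θ := by
  induction r with
  | zero => simp
  | succ r ih =>
    have h1 : (n * (1 - c)) ^ (r + 1) * Θ = (n * (1 - c)) ^ r * Θ * (2 * n) := by
      have h2 : (n * (1 - c)) * Θ = 2 * n * Θ := by linear_combination (-n) * h
      calc (n * (1 - c)) ^ (r + 1) * Θ = (n * (1 - c)) ^ r * ((n * (1 - c)) * Θ) := by ring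
        _ = (n * (1 - c)) ^ r * (2 * n * Θ) := by rw [h2]
        _ = _ := by ring
    rw [h1, ih]
    ring

end

/-- row TR1 -/
theorem TR1 (hMDL : MDL_stmt) (hEXL : EXL_stmt) (hPWR : PWR_stmt) (hFCT : FCT_stmt) : TR1_stmt := by
  intro F H _ _ _ _ _ _ _ r D hR Θ hΘ hc n u hDS φ hφ
  obtain ⟨W, N, _, _, _, _, ι, j, hι, hj⟩ := hMDL F H r D
  have hord : ∀ i : Fin r, IsGH (UU D) (fun x => ordZ F (D.w i) (x : H)) := fun i =>
    (hPWR F H (D.T : Set (HOS F)) (Set.range D.v)).2.2.2 (D.w i)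
  choose o ho using fun i => hEXL F H r D W ι hι _ (hord i)
  choose f hf using fun i => hEXL F H r D W ι hι (φ i) (hφ i)
  obtain ⟨hn, hu, hdu⟩ := hDS
  let U : Fin r → UU D := fun k => ⟨u k, (hu k).1⟩
  have hι1 : ι 1 = 0 := by
    have h1 := hι.mul 1 1
    rw [mul_one] at h1
    exact left_eq_add.1 h1
  have hιinv : ∀ x : UU D, ι x⁻¹ = - ι x := by
    intro x
    have h1 := hι.mul x x⁻¹
    rw [mul_inv_cancel, hι1] at h1
    exact (neg_eq_of_add_eq_zero_right h1.symm).symm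
  have hneg : ∀ k, sg D.c • ι (U k) = - ι (U k) := by
    intro k
    rw [← hιinv]
    refine (hι.equiv D.c (U k) (U k)⁻¹ ?_).symm
    have h1 : (u k : H) * D.c (u k : H) = 1 := (hu k).2
    change (((u k)⁻¹ : Hˣ) : H) = D.c (u k : H)
    rw [Units.val_inv_eq_inv_val]
    exact inv_eq_of_mul_eq_one_right h1
  choose x hx using fun k => (hj.2 (ι (U k))).2 (hneg k)
  obtain ⟨q, hq⟩ := TR1_inv (F := F) (H := H) ((2 * n) ^ r) (pow_ne_zero _ (mul_ne_zero two_ne_zero hn))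
  let u₀ : EP (QGr F H) N r := ((q * Θ) • exteriorPower.ιMulti (QGr F H) r x : ⋀[QGr F H]^r N)
  have hdetg : ∀ (g : Fin r → W →ₗ[QGr F H] QGr F H), detm g j u₀ =
      (q * Θ) * Matrix.det (fun i k => g i (ι (U k))) := by
    intro g
    have h1 := TR1_detm g j x (q * Θ)
    simp only [hx] at h1
    exact h1
  have hdeto : detm o j u₀ = Θ := by
    rw [hdetg]
    have h1 : (fun i k => o i (ι (U k))) = Matrix.diagonal (fun _ : Fin r => (n : QGr F H) * (1 - sg D.c)) := by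
      funext i k
      rw [ho i (U k)]
      have h2 : ordZ F (D.w i) ((U k : Hˣ) : H) = if i = k then n • (1 - MonoidAlgebra.single D.c 1) else 0 :=
        hdu i k
      rw [h2, Matrix.diagonal_apply]
      split_ifs with h
      · rw [TR1_toQ, map_nsmul, map_sub, map_one, TR1_sg, nsmul_eq_mul]
      · rw [TR1_toQ, map_zero]
    rw [h1, Matrix.det_diagonal, Finset.prod_const, Finset.card_univ, Fintype.card_fin]
    have h3 := TR1_pow (n : QGr F H) (sg D.c) Θ hc r
    calc q * Θ * ((n : QGr F H) * (1 - sg D.c)) ^ r = q * (((n : QGr F H) * (1 - sg D.c)) ^ r * Θ) := by ring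
      _ = q * ((2 * (n : QGr F H)) ^ r * Θ) := by rw [h3]
      _ = ((((2 * n) ^ r : ℕ) : QGr F H) * q) * Θ := by push_cast; ring
      _ = Θ := by rw [hq, one_mul]
  have hRBS : IsRBS D ι j u₀ := ⟨o, ho, by rw [hdeto]; exact hΘ⟩
  obtain ⟨d, hd, hL⟩ := hR W N ι j hι hj u₀ hRBS
  obtain ⟨y, hy⟩ := hL f (fun i x => ⟨φ i (x : Hˣ), hf i x⟩)
  refine ⟨d, y, hd, ?_⟩
  rw [TR1_nsm, hdetg] at hy
  have h4 : Matrix.det (fun i k => f i (ι (U k))) = toQ (Matrix.det (fun i j => φ i (u j))) := by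
    rw [TR1_toQ, RingHom.map_det]
    apply congrArg
    funext i k
    exact hf i (U k)
  rw [h4] at hy
  rw [← hy]
  calc (d : QGr F H) * (Θ * toQ (Matrix.det (fun i j => φ i (u j)))) =
      1 * ((d : QGr F H) * (Θ * toQ (Matrix.det (fun i j => φ i (u j))))) := by rw [one_mul]
    _ = _ := by rw [← hq]; ring

end Pool.Agent.VR
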